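import Pool.Agent.helper82.CH.SpecA

set_option autoImplicit false

open NumberField Complex Pool.Agent.UN

namespace Pool.Agent.CH

/-- the bound at the prime powers which are not primes -/
noncomputable def LGB_g (n : ℕ) : ℝ := (if n.Prime then 0 else ArithmeticFunction.vonMangoldt n) / (n : ℝ)

theorem LGB_g_summable : Summable LGB_g := by
  have h := ArithmeticFunction.vonMangoldt.summable_residueClass_non_primes_div (q := 1) (a := (0 : ZMod 1))
  refine h.congr fun n => ?_
  unfold LGB_g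
  have : ArithmeticFunction.vonMangoldt.residueClass (0 : ZMod 1) n = ArithmeticFunction.vonMangoldt n := by
    unfold ArithmeticFunction.vonMangoldt.residueClass
    rw [Set.indicator_of_mem]
    exact Subsingleton.elim _ _
  rw [this]

theorem LGB_summable (u : ℕ → ℂ) (B : ℝ) (hB : ∀ n, ‖u n‖ ≤ B * ArithmeticFunction.vonMangoldt n) (s : ℝ) (hs : 1 < s) :
    LSeriesSummable u s := by
  have hΛ := ArithmeticFunction.LSeriesSummable_vonMangoldt (s := (s : ℂ)) (by simpa using hs)
  refine Summable.of_norm_bounded (hΛ.norm.mul_left B) fun n => ?_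
  rw [LSeries.norm_term_eq, LSeries.norm_term_eq]
  by_cases hn : n = 0
  · simp [hn]
  · rw [if_neg hn, if_neg hn]
    have hp : (0 : ℝ) < (n : ℝ) ^ (s : ℂ).re := Real.rpow_pos_of_pos (by exact_mod_cast Nat.pos_of_ne_zero hn) _
    rw [← mul_div_assoc]
    refine div_le_div_of_nonneg_right ?_ hp.le
    have : ‖((ArithmeticFunction.vonMangoldt n : ℝ) : ℂ)‖ = ArithmeticFunction.vonMangoldt n := by
      rw [Complex.norm_real, Real.norm_of_nonneg ArithmeticFunction.vonMangoldt_nonneg]
    rw [this]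
    exact hB n

theorem LGB_core (u : ℕ → ℂ) (B d : ℝ) (hd0 : 0 ≤ d) (hB : ∀ n, ‖u n‖ ≤ B * ArithmeticFunction.vonMangoldt n)
    (hd : ∀ n, ¬ n.Prime → ‖u n‖ ≤ d * ArithmeticFunction.vonMangoldt n) (s : ℝ) (hs : 1 < s) :
    Summable (fun p : Nat.Primes => LSeries.term u s p) ∧
    ‖LSeries u s - ∑' p : Nat.Primes, LSeries.term u s p‖ ≤ ∑' n, d * LGB_g n := by
  have hL := LGB_summable u B hB s hs
  have hsub : Summable (fun p : Nat.Primes => LSeries.term u s p) := hL.comp_injective Subtype.val_injective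
  refine ⟨hsub, ?_⟩
  set v : ℕ → ℂ := fun n => if n.Prime then LSeries.term u s n else 0 with hv
  have hvs : Summable v := by
    refine Summable.of_norm_bounded hL.norm fun n => ?_
    rw [hv]
    by_cases hn : n.Prime
    · simp [hn]
    · simp [hn]
  have heq : ∑' p : Nat.Primes, LSeries.term u s p = ∑' n, v n := by
    have hinj : Function.Injective (fun p : Nat.Primes => (p : ℕ)) := Subtype.val_injective
    rw [← hinj.tsum_eq (f := v)]
    · refine tsum_congr fun p => ?_
      rw [hv]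
      simp [p.2]
    · intro n hn
      by_cases hp : n.Prime
      · exact ⟨⟨n, hp⟩, rfl⟩
      · exact absurd (by rw [hv]; simp [hp]) hn
  rw [heq, LSeries, ← hL.tsum_sub hvs]
  refine tsum_of_norm_bounded (LGB_g_summable.mul_left d).hasSum fun n => ?_
  rw [hv]
  by_cases hp : n.Prime
  · simp only [hp, if_true, sub_self, norm_zero]
    unfold LGB_g
    rw [if_pos hp]
    simp
  · simp only [hp, if_false, sub_zero]
    rw [LSeries.norm_term_eq]
    unfold LGB_g
    rw [if_neg hp]
    by_cases hn : n = 0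
    · simp [hn]
    · rw [if_neg hn]
      have hn1 : (1 : ℝ) ≤ n := by exact_mod_cast Nat.one_le_iff_ne_zero.2 hn
      have hn0 : (0 : ℝ) < n := by linarith
      have hpow : (n : ℝ) ≤ (n : ℝ) ^ (s : ℂ).re := by
        rw [Complex.ofReal_re]
        calc (n : ℝ) = (n : ℝ) ^ (1 : ℝ) := (Real.rpow_one _).symm
          _ ≤ (n : ℝ) ^ s := Real.rpow_le_rpow_of_exponent_le hn1 hs.le
      calc ‖u n‖ / (n : ℝ) ^ (s : ℂ).re ≤ ‖u n‖ / (n : ℝ) := div_le_div_of_nonneg_left (norm_nonneg _) hn0 hpow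
        _ ≤ (d * ArithmeticFunction.vonMangoldt n) / (n : ℝ) := div_le_div_of_nonneg_right (hd n hp) hn0.le
        _ = d * (ArithmeticFunction.vonMangoldt n / (n : ℝ)) := mul_div_assoc _ _ _

theorem LGB_term (u : ℕ → ℂ) (s : ℝ) (p : Nat.Primes) : LSeries.term u s p = u p * ((p : ℕ) : ℂ) ^ (-(s : ℂ)) := by
  rw [LSeries.term_of_ne_zero p.2.ne_zero, Complex.cpow_neg, div_eq_mul_inv]

/-- Row LGB. -/
theorem LGB (hZBD : ZBD_stmt) : LGB_stmt := by
  intro F _ _
  set d : ℝ := (Module.finrank ℚ F : ℝ) with hd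
  have hd0 : 0 ≤ d := Nat.cast_nonneg _
  refine ⟨∑' n, d * LGB_g n, fun χ hχ s hs => ?_⟩
  obtain ⟨h1, -, h3⟩ := hZBD F χ hχ
  have hz : ∀ n : ℕ, n < 2 → zz χ n = 0 := by
    intro n hn
    have h := h1 n
    have h0 : (ArithmeticFunction.vonMangoldt n : ℝ) = 0 := by
      interval_cases n <;> simp
    rw [h0, mul_zero] at h
    exact norm_le_zero_iff.1 h
  have hlog : ∀ n : ℕ, 2 ≤ n → Real.log 2 ≤ Real.log n := by
    intro n hn
    exact Real.log_le_log (by norm_num) (by exact_mod_cast hn)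
  have hl2 : (0 : ℝ) < Real.log 2 := Real.log_pos (by norm_num)
  have hlg : ∀ n : ℕ, ‖lg χ n‖ ≤ (d / Real.log 2) * ArithmeticFunction.vonMangoldt n := by
    intro n
    unfold lg
    rcases lt_or_ge n 2 with hn | hn
    · rw [hz n hn, zero_div, norm_zero]
      have := ArithmeticFunction.vonMangoldt_nonneg (n := n)
      positivity
    · have hl := hlog n hn
      rw [norm_div, Complex.norm_real, Real.norm_of_nonneg (hl2.le.trans hl)]
      calc ‖zz χ n‖ / Real.log n ≤ ‖zz χ n‖ / Real.log 2 := div_le_div_of_nonneg_left (norm_nonneg _) hl2 hl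
        _ ≤ (d * ArithmeticFunction.vonMangoldt n) / Real.log 2 := div_le_div_of_nonneg_right (h1 n) hl2.le
        _ = _ := by ring
  have hlg' : ∀ n : ℕ, ¬ n.Prime → ‖lg χ n‖ ≤ d * ArithmeticFunction.vonMangoldt n := by
    intro n hp
    unfold lg
    rcases lt_or_ge n 2 with hn | hn
    · rw [hz n hn, zero_div, norm_zero]
      have := ArithmeticFunction.vonMangoldt_nonneg (n := n)
      positivity
    · have hn3 : 3 ≤ n := by
        rcases Nat.lt_or_ge n 3 with h | h
        · exact absurd (by rw [show n = 2 by omega]; exact Nat.prime_two) hp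
        · exact h
      have hl : 1 ≤ Real.log n := by
        rw [Real.le_log_iff_exp_le (by positivity)]
        have h3n : (3 : ℝ) ≤ n := by exact_mod_cast hn3
        linarith [Real.exp_one_lt_d9]
      rw [norm_div, Complex.norm_real, Real.norm_of_nonneg (by linarith)]
      calc ‖zz χ n‖ / Real.log n ≤ ‖zz χ n‖ := div_le_self (norm_nonneg _) hl
        _ ≤ _ := h1 n
  have hA := LGB_core (lg χ) _ d hd0 hlg hlg' s hs
  have hB := LGB_core (zz χ) d d hd0 h1 (fun n _ => h1 n) s hs
  have ht1 : (fun p : Nat.Primes => LSeries.term (lg χ) s p) = fun p : Nat.Primes => cc χ p * (((p : ℕ) : ℂ) ^ (-(s : ℂ))) := by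
    funext p
    rw [LGB_term]
    have hlp : (Real.log (p : ℕ) : ℂ) ≠ 0 := by
      have : (0 : ℝ) < Real.log (p : ℕ) := Real.log_pos (by exact_mod_cast p.2.one_lt)
      exact_mod_cast this.ne'
    unfold lg
    rw [h3 p p.2, mul_div_assoc, mul_comm (Real.log (p : ℕ) : ℂ), div_mul_cancel₀ _ hlp]
  have ht2 : (fun p : Nat.Primes => LSeries.term (zz χ) s p) = fun p : Nat.Primes => (Real.log p : ℂ) * cc χ p * (((p : ℕ) : ℂ) ^ (-(s : ℂ))) := by
    funext p
    rw [LGB_term, h3 p p.2]
  rw [ht1] at hA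
  rw [ht2] at hB
  exact ⟨hA.1, hB.1, hA.2, hB.2⟩

end Pool.Agent.CH
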