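import Pool.Agent.helper82.CH.SpecN

set_option autoImplicit false

open NumberField Complex Pool.Agent.UN

namespace Pool.Agent.CH

theorem ZM2_D (K : Type) [Field K] [NumberField K] : ((Dc K : ℝ) : ℂ) ≠ 0 := by
  have h : (Dc K : ℝ) ≠ 0 := by
    unfold Dc
    have := NumberField.discr_ne_zero K
    simpa using this
  exact_mod_cast h

theorem ZM2_e (K : Type) [Field K] [NumberField K] (hCZR : CZR_stmt) (Z : ℂ → ℂ) (hZ : HLZ K Z) (c : ℂ) (e : (K →+* ℂ) → ℝ) (hc : ‖c‖ = 1)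
    (he : ∀ σ, e σ = 0 ∨ e σ = 1)
    (hfe : ∀ s : ℂ,
      s * ((Dc K : ℝ) : ℂ) ^ (s / 2) * Z s * ∏ σ : K →+* ℂ, (Gammaℝ (1 - s + e σ))⁻¹ =
      c * ((1 - s) * ((Dc K : ℝ) : ℂ) ^ ((1 - s) / 2) * (starRingEnd ℂ) (Z (1 - (starRingEnd ℂ) s)) *
        ∏ σ : K →+* ℂ, (Gammaℝ (s + e σ))⁻¹)) : ∃ σ, e σ = 0 := by
  by_contra hno
  have h1 : ∀ σ, e σ = 1 := by
    intro σ
    rcases he σ with h | h
    · exact absurd ⟨σ, h⟩ hno
    · exact h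
  have h0 := hfe 0
  rw [zero_mul, zero_mul, zero_mul] at h0
  have hc0 : c ≠ 0 := by
    intro h
    rw [h, norm_zero] at hc
    exact zero_ne_one hc
  have hres : (dedekindZeta_residue K : ℂ) ≠ 0 := by
    exact_mod_cast (NumberField.dedekindZeta_residue_pos K).ne'
  have hZ1 : (starRingEnd ℂ) (Z (1 - (starRingEnd ℂ) 0)) ≠ 0 := by
    rw [map_zero, sub_zero, (hCZR K Z hZ).1, Complex.conj_ofReal]
    exact hres
  have hprod : ∏ σ : K →+* ℂ, (Gammaℝ (0 + e σ))⁻¹ ≠ 0 := by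
    rw [Finset.prod_ne_zero_iff]
    intro σ _
    rw [h1 σ]
    refine inv_ne_zero (Gammaℝ_ne_zero_of_re_pos ?_)
    simp
  have hD : ((Dc K : ℝ) : ℂ) ^ ((1 - 0 : ℂ) / 2) ≠ 0 := by
    rw [Complex.cpow_ne_zero_iff]
    exact Or.inl (ZM2_D K)
  have hone : (1 - 0 : ℂ) ≠ 0 := by simp
  exact mul_ne_zero hc0 (mul_ne_zero (mul_ne_zero (mul_ne_zero hone hD) hZ1) hprod) h0.symm

/-- Row ZM2. -/
theorem ZM2 (hCZR : CZR_stmt) : ZM2_stmt := by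
  intro K _ _ Z hZ
  obtain ⟨c, e, hc, he, hfe⟩ := hZ.fe
  obtain ⟨σ₀, hσ₀⟩ := ZM2_e K hCZR Z hZ c e hc he hfe
  have h2 := hfe (-2)
  have hr : ∏ σ : K →+* ℂ, (Gammaℝ (-2 + e σ))⁻¹ = 0 := by
    refine Finset.prod_eq_zero (Finset.mem_univ σ₀) ?_
    have : Gammaℝ (-2 + (e σ₀ : ℂ)) = 0 := by
      rw [Gammaℝ_eq_zero_iff]
      refine ⟨1, ?_⟩
      rw [hσ₀]
      simp
    rw [this, inv_zero]
  rw [hr, mul_zero, mul_zero] at h2
  have hl : ∏ σ : K →+* ℂ, (Gammaℝ (1 - (-2) + e σ))⁻¹ ≠ 0 := by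
    rw [Finset.prod_ne_zero_iff]
    intro σ _
    refine inv_ne_zero (Gammaℝ_ne_zero_of_re_pos ?_)
    have : 0 ≤ e σ := by
      rcases he σ with h | h <;> rw [h] <;> norm_num
    simp
    linarith
  have hD : ((Dc K : ℝ) : ℂ) ^ ((-2 : ℂ) / 2) ≠ 0 := by
    rw [Complex.cpow_ne_zero_iff]
    exact Or.inl (ZM2_D K)
  rcases mul_eq_zero.1 h2 with h3 | h3
  · rcases mul_eq_zero.1 h3 with h4 | h4
    · rcases mul_eq_zero.1 h4 with h5 | h5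
      · norm_num at h5
      · exact absurd h5 hD
    · exact h4
  · exact absurd h3 hl

end Pool.Agent.CH
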